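import Pool.Agent.Helper11.SG.AsmP2
import Pool.Agent.Helper68.SG2.GoalsE

/-!
# Project SG, stage 2 (factors elliptic curves or `G_m`), part 2: the global inequality
-/

set_option autoImplicit false

open MvPolynomial

namespace Pool.Agent.Helper11.SGT

open WeierstrassCurve Height Height.AdmissibleAbsValues
open Pool.Agent.Helper29.BL Pool.Agent.Helper92.Ru Pool.Agent.Helper42.SG
open Pool.Agent.Helper68.SG2 Pool.Agent.Helper11.SG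
open Pool.Agent.Helper66.SG (sp3 sp4 pt)

noncomputable section

/-- the two types -/
def TT (t₁ t₂ : Bool) : ℕ → Bool := fun i => if i = 0 then t₁ else t₂

variable {K : Type} [Field K]

lemma loT_zero (t₁ t₂ : Bool) (W₁ W₂ : Affine K) (e : ℕ) (a b c d a' b' c' d' : K) :
    loT (TT t₁ t₂) (WW W₁ W₂) 1 (fun _ => e) (four a b c d) (four a' b' c' d') 0 =
      lo1 t₁ W₁ e a c a' c' := by
  unfold loT lo1
  have h1 : TT t₁ t₂ (0 % 2) = t₁ := rfl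
  have h2 := (lawV_four W₁ W₂ e false a b c d a' b' c' d').1
  rw [h1, h2]
  rfl

lemma loT_one (t₁ t₂ : Bool) (W₁ W₂ : Affine K) (e : ℕ) (a b c d a' b' c' d' : K) :
    loT (TT t₁ t₂) (WW W₁ W₂) 1 (fun _ => e) (four a b c d) (four a' b' c' d') 1 =
      lo1 t₂ W₂ e b d b' d' := by
  unfold loT lo1
  have h1 : TT t₁ t₂ (1 % 2) = t₂ := rfl
  have h2 := (lawV_four W₁ W₂ e false a b c d a' b' c' d').2
  rw [h1, h2]
  rfl

lemma lo1_false (W : Affine K) (e : ℕ) (x c ψx ψc : K) :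
    lo1 false W e x c ψx ψc = law W e false x c (ψx * ψc) := by
  simp [lo1]

lemma two_cases (p : ℕ → Prop) (h0 : p 0) (h1 : p 1) : ∀ h < 2 * 1, p h := by
  intro h hh
  have : h = 0 ∨ h = 1 := by omega
  rcases this with rfl | rfl
  · exact h0
  · exact h1

/-- the global inequality for a minimal non-zero coefficient -/
theorem glob_ineqT (hLAWCT : LAWCT) (hLOCT : LOCT) (hLAW1 : LAW1)
    (hGLOBT : GLOBT) (hCVAL : Pool.Agent.Helper92.SGE.CVAL)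
    (K : Type) [Field K] [NumberField K] [DecidableEq K] (W₁ W₂ : Affine K) (t₁ t₂ : Bool)
    (H₁ : W₁.Point → ℝ) (H₂ : W₂.Point → ℝ) (co₁ cp₁ : W₁.Point → K) (co₂ cp₂ : W₂.Point → K)
    (c₀ : ℝ) (hF₁ : Fac W₁ t₁ H₁ co₁ cp₁ c₀) (hF₂ : Fac W₂ t₂ H₂ co₂ cp₂ c₀)
    (M k0 : ℕ) (hM : 1 ≤ M) (B B1 : AbsoluteValue K ℝ → ℝ) (hB : PlC B) (hB1 : PlC B1) :
    ∃ C : ℝ, 0 ≤ C ∧ ∀ (e : ℕ) (f : MvPolynomial (Fin 2) K) (c : Idx 1 M 1 (fun _ => e) → K)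
      (A : ℝ) (P₁ Q₁ : W₁.Point) (P₂ Q₂ : W₂.Point)
      (X Ψ : ℕ → MvPowerSeries (Fin 2) K) (α : Fin 2 →₀ ℕ),
      0 ≤ A → (∀ α, IsIntegral ℤ (c α)) → (∀ α, NumberField.house (c α) ≤ Real.exp A) →
      KeyI (TT t₁ t₂) (WW W₁ W₂) 1 M 1 k0 f (fun _ => e) c B →
      P₁ ≠ 0 → Q₁ ≠ 0 → H₁ (sc1 t₁ e P₁ - Q₁) < 4 * H₁ Q₁ →
      P₂ ≠ 0 → Q₂ ≠ 0 → H₂ (sc1 t₂ e P₂ - Q₂) < 4 * H₂ Q₂ →
      eval (pt (co₁ Q₁) (co₂ Q₂)) f = 0 →
      TayZT (TT t₁ t₂) (WW W₁ W₂) (four (co₁ P₁) (co₂ P₂) (co₁ Q₁) (co₂ Q₂))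
        (four (cp₁ P₁) (cp₂ P₂) (cp₁ Q₁) (cp₂ Q₂)) X Ψ →
      PtT (TT t₁ t₂) (WW W₁ W₂) 1 (four (co₁ P₁) (co₂ P₂) (co₁ Q₁) (co₂ Q₂))
        (four (cp₁ P₁) (cp₂ P₂) (cp₁ Q₁) (cp₂ Q₂)) →
      (∀ v : AbsoluteValue K ℝ, NrmT (TT t₁ t₂) 1 v
        (fun i : Fin 2 => 1 / (B1 v * Mv v (rhoT (TT t₁ t₂)
          (four (co₁ P₁) (co₂ P₂) (co₁ Q₁) (co₂ Q₂)) i.val) ^ 2))
        (four (co₁ P₁) (co₂ P₂) (co₁ Q₁) (co₂ Q₂)) (four (cp₁ P₁) (cp₂ P₂) (cp₁ Q₁) (cp₂ Q₂))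
        X Ψ (B1 v)) →
      MvPowerSeries.coeff α (PT (TT t₁ t₂) (mapW _ (WW W₁ W₂)) 1 M 1 (fun _ => e)
        (fun α => algebraMap K (MvPowerSeries (Fin 2) K) (c α)) (fun _ => false) X Ψ) ≠ 0 →
      (∀ β : Fin 2 →₀ ℕ, wt (fun _ => 1) β < wt (fun _ => 1) α →
        MvPowerSeries.coeff β (PT (TT t₁ t₂) (mapW _ (WW W₁ W₂)) 1 M 1 (fun _ => e)
          (fun α => algebraMap K (MvPowerSeries (Fin 2) K) (c α)) (fun _ => false) X Ψ) = 0) →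
      ((k0 : ℝ) * 4 ^ e) *
          PS (fun v => min (Real.posLog (v (zeT (TT t₁ t₂)
            (four (co₁ P₁) (co₂ P₂) (co₁ Q₁) (co₂ Q₂)) 0)))
            (Real.posLog (v (zeT (TT t₁ t₂)
            (four (co₁ P₁) (co₂ P₂) (co₁ Q₁) (co₂ Q₂)) 1)))) ≤
        C * (4 ^ e + A) +
          ((M * logHeight₁ (co₁ (sc1 t₁ e P₁ - Q₁)) + (4 : ℝ) ^ e * logHeight₁ (co₁ P₁)) +
            (M * logHeight₁ (co₂ (sc1 t₂ e P₂ - Q₂)) + (4 : ℝ) ^ e * logHeight₁ (co₂ P₂))) +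
          (logHeight₁ (co₁ Q₁) + logHeight₁ (co₂ Q₂)) +
          ((α 0 : ℝ) * (C + 2 * logHeight₁ (co₁ P₁)) +
            (α 1 : ℝ) * (C + 2 * logHeight₁ (co₂ P₂))) := by
  obtain ⟨E1, hE1, hlaw1⟩ := hLAW1 K W₁ t₁ H₁ co₁ cp₁ c₀ hF₁
  obtain ⟨E2, hE2, hlaw2⟩ := hLAW1 K W₂ t₂ H₂ co₂ cp₂ c₀ hF₂
  have hE : PlC (fun v => E1 v * E2 v) := Pool.Agent.Helper62.SGB.plc_mul hE1 hE2
  obtain ⟨Bt, hBt, hloc⟩ := hLOCT K (TT t₁ t₂) (WW W₁ W₂) 1 M 1 k0 B B1 (fun v => E1 v * E2 v)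
    (le_refl 1) hM hB hB1 hE
  obtain ⟨C, hC, hglob⟩ := hGLOBT K 1 M 1 k0 Bt B1 hBt hB1
  refine ⟨C, hC, ?_⟩
  intro e f c A P₁ Q₁ P₂ Q₂ X Ψ α hA hint hhouse hKEY hP1 hQ1 hPQ1 hP2 hQ2 hPQ2 hf hT hPt hTn
    hα hmin
  set ξ : ℕ → K := four (co₁ P₁) (co₂ P₂) (co₁ Q₁) (co₂ Q₂) with hξ
  set ψ : ℕ → K := four (cp₁ P₁) (cp₂ P₂) (cp₁ Q₁) (cp₂ Q₂) with hψ
  set δ : K := MvPowerSeries.coeff α (PT (TT t₁ t₂) (mapW _ (WW W₁ W₂)) 1 M 1 (fun _ => e)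
        (fun α => algebraMap K (MvPowerSeries (Fin 2) K) (c α)) (fun _ => false) X Ψ) with hδ
  obtain ⟨ω1, la1, lb1, lc1, ld1⟩ := hlaw1 P₁ Q₁ e hP1 hQ1 hPQ1
  obtain ⟨ω2, la2, lb2, lc2, ld2⟩ := hlaw2 P₂ Q₂ e hP2 hQ2 hPQ2
  have hl0 : ∀ l : Bool, lawV (mapW K (WW W₁ W₂)) 1 (fun _ => e) (fun _ => l) ξ ψ 0 =
      law W₁ e l (co₁ P₁) (co₁ Q₁) (cp₁ P₁ * cp₁ Q₁) :=
    fun l => (lawV_four W₁ W₂ e l _ _ _ _ _ _ _ _).1
  have hl1 : ∀ l : Bool, lawV (mapW K (WW W₁ W₂)) 1 (fun _ => e) (fun _ => l) ξ ψ 1 =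
      law W₂ e l (co₂ P₂) (co₂ Q₂) (cp₂ P₂ * cp₂ Q₂) :=
    fun l => (lawV_four W₁ W₂ e l _ _ _ _ _ _ _ _).2
  have hT0 : TT t₁ t₂ (0 % 2) = t₁ := rfl
  have hT1 : TT t₁ t₂ (1 % 2) = t₂ := rfl
  set ω : ℕ → K := fun h => if h = 0 then ω1 else ω2 with hω
  -- constant terms
  have hcst : ∀ h < 2 * 1 + 2, MvPowerSeries.constantCoeff (X h) = ξ h ∧
      MvPowerSeries.constantCoeff (Ψ h) = ψ h := by
    intro h hh
    by_cases h2 : h < 2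
    · have h3 := hT.eqX ⟨h, h2⟩
      have h4 := hT.cst ⟨h, h2⟩
      simp only at h3 h4
      refine ⟨?_, h4⟩
      rw [h3]
      simp
    · obtain ⟨i, rfl⟩ : ∃ i, h = 2 + i := ⟨h - 2, by omega⟩
      have hi : i < 2 := by omega
      rw [hT.cX i hi, hT.cP i hi]
      simp
  have hlaw : ∀ lam : ℕ → Bool, MvPowerSeries.coeff α (PT (TT t₁ t₂) (mapW _ (WW W₁ W₂)) 1 M 1
        (fun _ => e) (fun α => algebraMap K (MvPowerSeries (Fin 2) K) (c α)) lam X Ψ) =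
        (∏ h ∈ Finset.range (2 * 1), omT (TT t₁ t₂) M (fun _ => e) lam ω ψ h) * δ := by
    intro lam
    refine hLAWCT K (TT t₁ t₂) (WW W₁ W₂) 1 M 1 (fun _ => e) c ξ ψ ω (Fin 2) X Ψ (fun _ => 1) α
      lam hT.onT hcst (fun _ => le_refl 1) ?_ ?_ hmin
    · apply two_cases
      · intro ht
        rw [hT0] at ht
        rw [hl0]
        rw [ht, lo1_false] at la1
        exact la1
      · intro ht
        rw [hT1] at ht
        rw [hl1]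
        rw [ht, lo1_false] at la2
        exact la2
    · apply two_cases
      · intro ht
        rw [hT0] at ht
        rw [hl0, hl0]
        simp only [hω, if_true]
        exact ⟨(ld1 ht).1, (ld1 ht).2.1⟩
      · intro ht
        rw [hT1] at ht
        rw [hl1, hl1]
        simp only [hω, one_ne_zero, if_false]
        exact ⟨(ld2 ht).1, (ld2 ht).2.1⟩
  have hfz : aeval (fun i : Fin 2 => X (2 * 1 + i.val)) f = 0 := by
    have h0 : (aeval (fun i : Fin 2 => X (2 * 1 + i.val)) f : MvPowerSeries (Fin 2) K) =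
        algebraMap K (MvPowerSeries (Fin 2) K) (eval (pt (co₁ Q₁) (co₂ Q₂)) f) := by
      rw [← MvPolynomial.aeval_eq_eval, ← MvPolynomial.aeval_algebraMap_apply]
      congr 2
      funext i
      fin_cases i
      · have := hT.cX 0 (by norm_num)
        simpa [hξ, four, pt, MvPowerSeries.algebraMap_apply] using this
      · have := hT.cX 1 (by norm_num)
        simpa [hξ, four, pt, MvPowerSeries.algebraMap_apply] using this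
    rw [h0, hf, map_zero]
  have hsq : Pool.Agent.Helper42.SG.sq 1 (fun _ => e) = 4 ^ e := by
    simp [Pool.Agent.Helper42.SG.sq]
  have hlocal : ∀ v : AbsoluteValue K ℝ, (v ∈ archAbsVal (K := K) ∨ v ∈ nonarchAbsVal (K := K)) →
      v δ ≤ cst v (Real.exp A) * Bt v ^ (Pool.Agent.Helper42.SG.sq 1 (fun _ => e)) *
        (∏ h ∈ Finset.range (2 * 1), (max (v (loT (TT t₁ t₂) (WW W₁ W₂) 1 (fun _ => e) ξ ψ h).1)
          (v (loT (TT t₁ t₂) (WW W₁ W₂) 1 (fun _ => e) ξ ψ h).2)) ^ M *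
            Mv v (ξ h) ^ (4 ^ ((fun _ => e) (h / 2)))) /
        (∏ j ∈ Finset.range 1, (min (Mv v (zeT (TT t₁ t₂) ξ (2 * j)))
          (Mv v (zeT (TT t₁ t₂) ξ (2 * j + 1)))) ^ (k0 * 4 ^ (fun _ => e) j)) *
        (Mv v (ξ (2 * 1)) * Mv v (ξ (2 * 1 + 1))) ^ 1 *
        ∏ i : Fin 2, (B1 v * Mv v (rhoT (TT t₁ t₂) ξ i.val) ^ 2) ^ (α i) := by
    intro v hv
    have hr : ∀ i : Fin 2, 0 < 1 / (B1 v * Mv v (rhoT (TT t₁ t₂) ξ i.val) ^ 2) := by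
      intro i
      have h1 := hB1.one_le v
      have h2 : 1 ≤ Mv v (rhoT (TT t₁ t₂) ξ i.val) := le_max_left _ _
      positivity
    have hcv := fun α => hCVAL K (c α) A hA (hint α) (hhouse α) v hv
    have hs0 : 0 ≤ cst v (Real.exp A) := le_trans (v.nonneg _)
      (hcv ⟨fun _ => ⟨⟨0, by positivity⟩, 0⟩, fun _ => 0⟩)
    have h := hloc f (fun _ => e) c ξ ψ ω (Fin 2) X Ψ α δ v
      (fun i : Fin 2 => 1 / (B1 v * Mv v (rhoT (TT t₁ t₂) ξ i.val) ^ 2)) (cst v (Real.exp A))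
      hKEY hT.onT hPt hs0 hcv hr hfz (hTn v) ?_ hlaw
    · simpa only [one_div, inv_inv] using h
    · have h2 := hE2.one_le v
      have h3 := hE1.one_le v
      apply two_cases
      · intro ht
        rw [hT0] at ht
        rw [hl0]
        have h1 := (ld1 ht).2.2 v
        refine h1.trans ?_
        have h4 : E1 v ^ (4 ^ e) ≤ (E1 v * E2 v) ^ (4 ^ e) :=
          pow_le_pow_left₀ (by linarith) (le_mul_of_one_le_right (by linarith) h2) _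
        have h5 : 0 ≤ max (v (law W₁ e false (co₁ P₁) (co₁ Q₁) (cp₁ P₁ * cp₁ Q₁)).1)
          (v (law W₁ e false (co₁ P₁) (co₁ Q₁) (cp₁ P₁ * cp₁ Q₁)).2) :=
            le_trans (v.nonneg _) (le_max_left _ _)
        have h6 : 0 ≤ Mv v ω1 := le_trans zero_le_one (le_max_left _ _)
        simp only [hω, if_true]
        gcongr
      · intro ht
        rw [hT1] at ht
        rw [hl1]
        have h1 := (ld2 ht).2.2 v
        refine h1.trans ?_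
        have h4 : E2 v ^ (4 ^ e) ≤ (E1 v * E2 v) ^ (4 ^ e) :=
          pow_le_pow_left₀ (by linarith) (le_mul_of_one_le_left (by linarith) h3) _
        have h5 : 0 ≤ max (v (law W₂ e false (co₂ P₂) (co₂ Q₂) (cp₂ P₂ * cp₂ Q₂)).1)
          (v (law W₂ e false (co₂ P₂) (co₂ Q₂) (cp₂ P₂ * cp₂ Q₂)).2) :=
            le_trans (v.nonneg _) (le_max_left _ _)
        have h6 : 0 ≤ Mv v ω2 := le_trans zero_le_one (le_max_left _ _)
        simp only [hω, one_ne_zero, if_false]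
        gcongr
  have hw : ∀ h < 2 * 1, ((loT (TT t₁ t₂) (WW W₁ W₂) 1 (fun _ => e) ξ ψ h).1 ≠ 0 ∨
        (loT (TT t₁ t₂) (WW W₁ W₂) 1 (fun _ => e) ξ ψ h).2 ≠ 0) ∧
      ((loT (TT t₁ t₂) (WW W₁ W₂) 1 (fun _ => e) ξ ψ h).1 ≠ 0 →
        (loT (TT t₁ t₂) (WW W₁ W₂) 1 (fun _ => e) ξ ψ h).2 =
        (fun h : ℕ => if h = 0 then co₁ (sc1 t₁ e P₁ - Q₁) else co₂ (sc1 t₂ e P₂ - Q₂)) h *
          (loT (TT t₁ t₂) (WW W₁ W₂) 1 (fun _ => e) ξ ψ h).1) ∧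
      ((loT (TT t₁ t₂) (WW W₁ W₂) 1 (fun _ => e) ξ ψ h).1 = 0 →
        (fun h : ℕ => if h = 0 then co₁ (sc1 t₁ e P₁ - Q₁) else co₂ (sc1 t₂ e P₂ - Q₂)) h = 0) := by
    apply two_cases
    · rw [hξ, hψ, loT_zero]
      simp only [if_true]
      exact ⟨la1, lb1, lc1⟩
    · rw [hξ, hψ, loT_one]
      simp only [one_ne_zero, if_false]
      exact ⟨la2, lb2, lc2⟩
  have hfin := hglob (fun _ => e) ξ (zeT (TT t₁ t₂) ξ)
    (fun h => (loT (TT t₁ t₂) (WW W₁ W₂) 1 (fun _ => e) ξ ψ h).1)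
    (fun h => (loT (TT t₁ t₂) (WW W₁ W₂) 1 (fun _ => e) ξ ψ h).2)
    (fun h : ℕ => if h = 0 then co₁ (sc1 t₁ e P₁ - Q₁) else co₂ (sc1 t₂ e P₂ - Q₂))
    (Fin 2) (fun i => rhoT (TT t₁ t₂) ξ i.val) α δ A hα hA hw hlocal
  have hρ : ∀ i : ℕ, logHeight₁ (rhoT (TT t₁ t₂) ξ i) = logHeight₁ (ξ i) := by
    intro i
    unfold rhoT
    split_ifs
    · exact logHeight₁_inv _
    · rfl
  rw [hsq, Finset.sum_range_one, show 2 * 1 = 1 + 1 from rfl, Finset.sum_range_succ,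
    Finset.sum_range_one, Fin.sum_univ_two, hρ, hρ] at hfin
  have e0 : ξ 0 = co₁ P₁ := rfl
  have e1 : ξ 1 = co₂ P₂ := rfl
  have e2 : ξ 2 = co₁ Q₁ := rfl
  have e3 : ξ 3 = co₂ Q₂ := rfl
  simpa [e0, e1, e2, e3] using hfin

end

end Pool.Agent.Helper11.SGT
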