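import Pool.Agent.Helper11.SGT.AsmP3
import Pool.Agent.Helper11.SG.AsmP4

/-!
# Project SG, stage 2, part 2: Theorem P2 for mixed factors (`PTWOT`)
-/

set_option autoImplicit false

open MvPolynomial

namespace Pool.Agent.Helper11.SGT

open WeierstrassCurve Height Height.AdmissibleAbsValues
open Pool.Agent.Helper29.BL Pool.Agent.Helper92.Ru Pool.Agent.Helper42.SG
open Pool.Agent.Helper68.SG2 Pool.Agent.Helper11.SG
open Pool.Agent.Helper66.SG (sp3 sp4 pt)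

noncomputable section

/-- nonvanishing of `Q` at the fixed point `x_0` -/
lemma sp4_ne_zeroT {K : Type} [Field K] {M e : ℕ} (T : ℕ → Bool)
    {c : Idx 1 M 1 (fun _ => e) → K} (hc : c ≠ 0)
    (Q : MvPolynomial (Fin (2 * 1 + 2)) K) (ξ : ℕ → K)
    (hξ : ∀ i : Fin 2, T i.val = true → ξ (2 + i.val) ≠ 0)
    (h : ∀ ξ0 : Fin 2 → K, (∀ i : Fin 2, T i.val = true → ξ0 i ≠ 0) →
      (∃ α, ∑ β : Fin 2 → Fin 1, c (α, β) * ∏ i : Fin 2, ξ0 i ^ (β i).val ≠ 0) →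
      ∃ y : ℕ → AlgebraicClosure K, (∀ i : Fin 2, y (2 * 1 + i.val) =
        algebraMap K (AlgebraicClosure K) (ξ0 i)) ∧ aeval (fun h => y h.val) Q ≠ 0) :
    aeval (sp4 ξ) Q ≠ 0 := by
  intro hQ
  obtain ⟨y, hy1, hy2⟩ := h (fun i => ξ (2 + i.val)) hξ (by
    obtain ⟨⟨α, β⟩, hαβ⟩ : ∃ α, c α ≠ 0 := Function.ne_iff.1 hc
    refine ⟨α, ?_⟩
    rw [Fintype.sum_unique]
    have hb : (default : Fin 2 → Fin 1) = β := Subsingleton.elim _ _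
    rw [hb]
    have hp : ∏ i : Fin 2, ξ (2 + i.val) ^ (β i).val = 1 := by
      apply Finset.prod_eq_one
      intro i _
      have : (β i).val = 0 := by omega
      rw [this, pow_zero]
    rw [hp, mul_one]
    exact hαβ)
  apply hy2
  have h2 : aeval (fun h : Fin (2 * 1 + 2) => y h.val) Q =
      aeval (fun i : Fin 2 => y i.val) (aeval (sp4 ξ) Q) := by
    have h3 : (aeval (fun h : Fin (2 * 1 + 2) => y h.val) : MvPolynomial _ K →ₐ[K] _) =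
        (aeval (fun i : Fin 2 => y i.val) : MvPolynomial _ K →ₐ[K] _).comp (aeval (sp4 ξ)) := by
      apply MvPolynomial.algHom_ext
      intro i
      rw [AlgHom.comp_apply, aeval_X, aeval_X]
      have h20 := hy1 0
      have h21 := hy1 1
      fin_cases i
      · simp [sp4]
      · simp [sp4]
      · simpa [sp4, algebraMap_eq] using h20
      · simpa [sp4, algebraMap_eq] using h21
    rw [h3]
    rfl
  rw [h2, hQ, map_zero]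

/-- **Theorem P2** for mixed factors. -/
theorem ptwot_of (hAUX : AUX2T) (hNQ : NQT)
    (hRESF : Pool.Agent.Helper66.SG.RESF) (hIXR : Pool.Agent.Helper66.SG.IXR)
    (hZER : Pool.Agent.Helper66.SG.ZER) (hTAYZ : TAYZT) (hQIX2 : QIX2T)
    (hMINA : Pool.Agent.Helper92.SGE.MINA) (hLAWCT : LAWCT) (hLOCT : LOCT) (hLAW1 : LAW1)
    (hFND : FND) (hGLOBT : GLOBT) (hCVAL : Pool.Agent.Helper92.SGE.CVAL)
    (hNUM2 : NUM2) (hGEO2 : GEO2T) (hDEG1 : DEG1) : PTWOT := by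
  intro K _ _ _ W₁ W₂ t₁ t₂ H₁ H₂ co₁ cp₁ co₂ cp₂ c₀ ε CI D hF₁ hF₂ hε
  classical
  -- parameters
  have hc₀ : 0 ≤ c₀ := le_trans (abs_nonneg _) (hF₁.near 0)
  obtain ⟨hfa1, hfb1⟩ := hFND K W₁ t₁ H₁ co₁ cp₁ c₀ hF₁
  obtain ⟨hfa2, hfb2⟩ := hFND K W₂ t₂ H₂ co₂ cp₂ c₀ hF₂
  obtain ⟨k0, hk0⟩ : ∃ x : ℕ, x = ⌈10 / ε⌉₊ + 1 := ⟨_, rfl⟩
  have hk01 : 1 ≤ k0 := by omega
  have hεk : 10 ≤ ε * k0 := by
    have h1 : 10 / ε ≤ (k0 : ℝ) := by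
      rw [hk0]; push_cast
      exact (Nat.le_ceil _).trans (by linarith)
    rw [div_le_iff₀ hε] at h1
    linarith
  obtain ⟨Dd, hDd⟩ : ∃ x : ℕ, x = D + 1 := ⟨_, rfl⟩
  have hDd1 : 1 ≤ Dd := by omega
  obtain ⟨M, CA, B, hM1, hB, hCA, haux⟩ := hAUX K (TT t₁ t₂) (WW W₁ W₂) k0 Dd hk01
  have hMR : (1 : ℝ) ≤ M := by exact_mod_cast hM1
  have hell : ∀ i, TT t₁ t₂ i = false → (WW W₁ W₂ i).IsElliptic := by
    intro i
    unfold TT WW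
    split_ifs
    · intro h; exact (hF₁.ell h).1
    · intro h; exact (hF₂.ell h).1
  obtain ⟨CQ, hCQ, hQ⟩ := hNQ K (TT t₁ t₂) (WW W₁ W₂) hell 1 M 1 (le_refl 1) hM1 (le_refl 1)
  obtain ⟨B1, hB1, htay⟩ := hTAYZ K (TT t₁ t₂) (WW W₁ W₂)
  obtain ⟨CG, hCG, hglob⟩ := glob_ineqT hLAWCT hLOCT hLAW1 hGLOBT hCVAL K W₁ W₂ t₁ t₂ H₁ H₂
    co₁ cp₁ co₂ cp₂ c₀ hF₁ hF₂ M k0 hM1 B B1 hB hB1
  obtain ⟨CI', hCI'⟩ : ∃ x : ℝ, x = max CI 0 := ⟨_, rfl⟩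
  have hCI'0 : 0 ≤ CI' := by rw [hCI']; exact le_max_right _ _
  obtain ⟨C1, hC1⟩ : ∃ x : ℝ, x = CA * (1 + 2 * CI') := ⟨_, rfl⟩
  have hC10 : 0 ≤ C1 := by rw [hC1]; positivity
  obtain ⟨K2, hK2, hnum⟩ := hNUM2 M c₀ CG C1 hc₀ hCG hC10
  obtain ⟨N, hN⟩ : ∃ x : ℕ, x = 4 * (2 * M + 1) * Dd := ⟨_, rfl⟩
  obtain ⟨C2, hC2⟩ : ∃ x : ℝ, x = 2 * CI' + CQ * (1 + C1) := ⟨_, rfl⟩
  have hC20 : 0 ≤ C2 := by rw [hC2]; positivity
  have hN1 : 4 * (2 * M + 1) ≤ N := by rw [hN]; exact Nat.le_mul_of_pos_right _ hDd1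
  have hN2 : Dd ≤ N := by rw [hN]; exact Nat.le_mul_of_pos_left _ (by omega)
  obtain ⟨D', C', hC', L, hL, hzer⟩ := zer_comb hRESF hIXR hZER K Dd N C2 hDd1 (by omega)
    hN2 hC20
  have hθ₀ : (0 : ℝ) < 1 / M := by positivity
  obtain ⟨θ, K0, hθ, hθ1, hK0, hgeo⟩ := hGEO2 K W₁ W₂ t₁ t₂ H₁ H₂ co₁ cp₁ co₂ cp₂ c₀ ε
    (max (max L K2) (max ((8 * L + 1) / ε) ((16 * CI' + 1) / ε))) (1 / M) hF₁ hF₂ hε hθ₀
  refine ⟨D', C', θ, K0, hθ, ?_⟩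
  intro z x₀ e hz1 hz2 hz3 hz4 hz5 hlow
  obtain ⟨⟨hb0, hb1, hb2, hb3⟩, ⟨hpl1, hpl2⟩, ⟨hh0, hh1⟩, ⟨hh2, hh3⟩,
    ⟨ht1, ht2⟩, hLe, hLz⟩ := hgeo z x₀ e hz1 hz2 hz3 hz4 hz5
  obtain ⟨hz0, -, hzg1, hze1⟩ := hfb1 z.1 hb0
  obtain ⟨hz0', -, hzg2, hze2⟩ := hfb2 z.2 hb1
  obtain ⟨hx0, -, hxg1, hxe1⟩ := hfb1 x₀.1 hb2
  obtain ⟨hx0', -, hxg2, hxe2⟩ := hfb2 x₀.2 hb3
  by_contra hnot
  obtain ⟨y, hy⟩ : ∃ y : ℝ, y = nrm H₁ H₂ z := ⟨_, rfl⟩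
  obtain ⟨t, ht⟩ : ∃ t : ℝ, t = nrm H₁ H₂ x₀ := ⟨_, rfl⟩
  rw [← hy] at hz1 hz2 hz4 hh0 hh1 ht1 ht2 hLz
  rw [← ht] at hz2 hz3 hz5 hh2 hh3 ht1 ht2
  have hy0 : 0 < y := lt_of_lt_of_le hK0 hz1
  have h4e : (1 : ℝ) ≤ 4 ^ e := one_le_pow₀ (by norm_num)
  have h4e0 : (0 : ℝ) < 4 ^ e := by positivity
  have hq1 : 1 ≤ 4 ^ e := Nat.one_le_pow _ _ (by norm_num)
  obtain ⟨f, hfirr, hfdeg, hfe, hfPH⟩ := hlow
  rw [pt_pair] at hfe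
  rw [← hy, ← ht] at hfPH
  have hfPH2 : Real.log (PH f) ≤ 2 * CI' * 4 ^ e := by
    refine hfPH.trans ?_
    have h1 : t / y ≤ 2 * 4 ^ e := by
      rw [div_le_iff₀ hy0]
      linarith
    have h0 : 0 ≤ t / y := by
      apply div_nonneg _ hy0.le
      nlinarith
    calc CI * (t / y) ≤ CI' * (t / y) :=
          mul_le_mul_of_nonneg_right (by rw [hCI']; exact le_max_left _ _) h0
      _ ≤ CI' * (2 * 4 ^ e) := mul_le_mul_of_nonneg_left h1 hCI'0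
      _ = 2 * CI' * 4 ^ e := by ring
  have hLL : L ≤ 4 ^ e := (le_max_left _ _).trans ((le_max_left _ _).trans hLe)
  have hyK2 : K2 ≤ y := (le_max_right _ _).trans ((le_max_left _ _).trans hLz)
  have hyL : 8 * L + 1 ≤ ε * y := by
    have h1 : (8 * L + 1) / ε ≤ y := (le_max_left _ _).trans ((le_max_right _ _).trans hLz)
    rw [div_le_iff₀ hε] at h1
    linarith
  have hyC : 16 * CI' + 1 ≤ ε * y := by
    have h1 : (16 * CI' + 1) / ε ≤ y := (le_max_right _ _).trans ((le_max_right _ _).trans hLz)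
    rw [div_le_iff₀ hε] at h1
    linarith
  have hx2 : ε * (4 ^ e * y) ≤ 8 * logHeight₁ (co₁ x₀.1) := by
    have : ε * (4 ^ e * y) ≤ ε * (2 * t) := mul_le_mul_of_nonneg_left ht2 hε.le
    nlinarith
  -- the curve through `x₀` involves the second variable
  have hf1 : 1 ≤ f.degreeOf 1 := by
    by_contra h
    have h0 : f.degreeOf 1 = 0 := by omega
    have h1 : logHeight₁ (co₁ x₀.1) ≤ Real.log (PH f) := hDEG1 K f _ _ hfirr h0 hfe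
    nlinarith
  have hfD : ∀ i, f.degreeOf i ≤ Dd := fun i => (hfdeg i).trans (by omega)
  -- the auxiliary function
  obtain ⟨c, hc0, hcint, hchouse, hKEYC⟩ := haux f (fun _ => e) hfirr.ne_zero hfD
  obtain ⟨A, hA⟩ : ∃ A : ℝ, A = CA * (4 ^ e + Real.log (PH f)) := ⟨_, rfl⟩
  rw [← hA] at hchouse
  have hA0 : 0 ≤ A := by
    rw [hA]
    have := log_PH_nonneg' f
    positivity
  have hA1 : A ≤ C1 * 4 ^ e := by
    rw [hA, hC1, mul_assoc]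
    apply mul_le_mul_of_nonneg_left _ hCA
    linarith
  obtain ⟨Q, hQ0, hQdeg, hQPH, hQnz, hQdvd⟩ := hQ (fun _ => e) c A hc0 hA0 hcint hchouse
  have hsq : Pool.Agent.Helper42.SG.sq 1 (fun _ => e) = 4 ^ e := by
    simp [Pool.Agent.Helper42.SG.sq]
  rw [hsq] at hQPH
  set ξ : ℕ → K := four (co₁ z.1) (co₂ z.2) (co₁ x₀.1) (co₂ x₀.2) with hξ
  set ψ : ℕ → K := four (cp₁ z.1) (cp₂ z.2) (cp₁ x₀.1) (cp₂ x₀.2) with hψ
  have hPt : PtT (TT t₁ t₂) (WW W₁ W₂) 1 ξ ψ := by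
    intro h hh
    have : h = 0 ∨ h = 1 ∨ h = 2 ∨ h = 3 := by omega
    rcases this with rfl | rfl | rfl | rfl
    · exact ⟨fun h => ⟨(hzg1 h).1, (hzg1 h).2.1, (hzg1 h).2.2.1⟩,
        fun h => ⟨(hze1 h).1, (hze1 h).2.1⟩⟩
    · exact ⟨fun h => ⟨(hzg2 h).1, (hzg2 h).2.1, (hzg2 h).2.2.1⟩,
        fun h => ⟨(hze2 h).1, (hze2 h).2.1⟩⟩
    · exact ⟨fun h => ⟨(hxg1 h).1, (hxg1 h).2.1, (hxg1 h).2.2.1⟩,
        fun h => ⟨(hxe1 h).1, (hxe1 h).2.1⟩⟩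
    · exact ⟨fun h => ⟨(hxg2 h).1, (hxg2 h).2.1, (hxg2 h).2.2.1⟩,
        fun h => ⟨(hxe2 h).1, (hxe2 h).2.1⟩⟩
  have hQsp : aeval (sp4 ξ) Q ≠ 0 := sp4_ne_zeroT (TT t₁ t₂) hc0 Q ξ (by
    intro i
    fin_cases i
    · intro h
      exact (hxg1 h).1
    · intro h
      exact (hxg2 h).1) hQnz
  have hQdeg2 : ∀ h : Fin 4, Q.degreeOf h ≤ if h.val < 2 then N * 4 ^ e else N := by
    intro h
    refine (hQdeg h).trans ?_
    unfold ddM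
    by_cases h2 : h.val < 2
    · rw [if_pos (by omega), if_pos h2]
      calc 4 ^ 1 * ((2 * M + 1) * 4 ^ e) = (4 * (2 * M + 1)) * 4 ^ e := by ring
        _ ≤ N * 4 ^ e := Nat.mul_le_mul_right _ hN1
    · rw [if_neg (by omega), if_neg h2]
      calc 4 ^ 1 * (2 * 1 * M + 1) = 4 * (2 * M + 1) := by ring
        _ ≤ N := hN1
  have hPHsum : Real.log (PH f) + Real.log (PH Q) ≤ C2 * ((4 ^ e : ℕ) : ℝ) := by
    push_cast at hQPH ⊢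
    have h1 : CQ * ((4 : ℝ) ^ e + A) ≤ CQ * (4 ^ e + C1 * 4 ^ e) :=
      mul_le_mul_of_nonneg_left (by linarith) hCQ
    rw [hC2]
    nlinarith
  have hxi0 : logHeight₁ (ξ 0) = logHeight₁ (co₁ z.1) := rfl
  have hxi1 : logHeight₁ (ξ 1) = logHeight₁ (co₂ z.2) := rfl
  have hxi2 : logHeight₁ (ξ 2) = logHeight₁ (co₁ x₀.1) := rfl
  rcases hzer (4 ^ e) f Q ξ hq1 hfirr hfD hf1 hfe hQdeg2 hQsp hPHsum
    (by push_cast; exact hLL) (by rw [hxi0]; linarith) (by rw [hxi1]; linarith)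
    (by rw [hxi2]; push_cast; nlinarith) with hgl | ⟨p, β, hpdvd, hpβ, hβq⟩
  · obtain ⟨g, hg1, hg2, hg3, hg4⟩ := hgl
    exact hnot ⟨g, hg1, hg2, by rw [pt_pair]; exact hg3, hg4⟩
  -- Taylor expansion
  obtain ⟨X, Ψ, hT, hTn⟩ := htay ξ ψ hPt
  obtain ⟨g, hg⟩ := hQdvd (MvPowerSeries (Fin 2) K) X Ψ hT.onT
  obtain ⟨α0, hα0, hα0c⟩ := hQIX2 K (TT t₁ t₂) (WW W₁ W₂) ξ ψ X Ψ Q p _ g β hT hPt hg hpdvd hpβ
  have hwt : ∀ γ : Fin 2 →₀ ℕ, wt (fun _ : Fin 2 => 1) γ = (γ 0 : ℝ) + γ 1 := by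
    intro γ
    simp [wt, Fin.sum_univ_two]
  obtain ⟨α, hα1, hα2, hα3⟩ := hMINA K (Fin 2) (fun _ => 1) _ ((4 : ℝ) ^ e) (fun _ => le_refl 1)
    (fun hall => hα0c (hall α0 (by
      rw [hwt]
      have h0 := hα0 0
      have h1 := hα0 1
      have h3 : ((α0 0 + α0 1 : ℕ) : ℝ) < ((4 ^ e : ℕ) : ℝ) := by
        exact_mod_cast (show α0 0 + α0 1 < 4 ^ e by omega)
      push_cast at h3
      exact h3)))
  rw [hwt] at hα1
  have hineq := hglob e f c A z.1 x₀.1 z.2 x₀.2 X Ψ α hA0 hcint hchouse hKEYC hz0 hx0 hpl1 hz0'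
    hx0' hpl2 hfe hT hPt hTn hα2 hα3
  have hze0 : zeT (TT t₁ t₂) ξ 0 = xc z.1 := by
    unfold zeT
    have h0 : TT t₁ t₂ (0 % 2) = t₁ := rfl
    rw [h0]
    by_cases h : t₁ = true
    · rw [if_pos h]
      exact (hzg1 h).2.2.2.symm
    · rw [if_neg h]
      exact (hze1 (by simpa using h)).2.2.symm
  have hze1' : zeT (TT t₁ t₂) ξ 1 = xc z.2 := by
    unfold zeT
    have h0 : TT t₁ t₂ (1 % 2) = t₂ := rfl
    rw [h0]
    by_cases h : t₂ = true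
    · rw [if_pos h]
      exact (hzg2 h).2.2.2.symm
    · rw [if_neg h]
      exact (hze2 (by simpa using h)).2.2.symm
  rw [← hξ, hze0, hze1'] at hineq
  -- the numbers
  have hn1 : logHeight₁ (co₁ z.1) + logHeight₁ (co₂ z.2) ≤ y + 2 * c₀ := by
    have h1 := hfa1 z.1
    have h2 := hfa2 z.2
    rw [hy]
    unfold nrm
    linarith
  have hn2 : logHeight₁ (co₁ x₀.1) + logHeight₁ (co₂ x₀.2) ≤ t + 2 * c₀ := by
    have h1 := hfa1 x₀.1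
    have h2 := hfa2 x₀.2
    rw [ht]
    unfold nrm
    linarith
  have hn3 : logHeight₁ (co₁ (sc1 t₁ e z.1 - x₀.1)) + logHeight₁ (co₂ (sc1 t₂ e z.2 - x₀.2)) ≤
      θ ^ 2 * t + 2 * c₀ := by
    have h1 := hfa1 (sc1 t₁ e z.1 - x₀.1)
    have h2 := hfa2 (sc1 t₂ e z.2 - x₀.2)
    have h3 : H₁ (sc1 t₁ e z.1 - x₀.1) + H₂ (sc1 t₂ e z.2 - x₀.2) ≤ θ ^ 2 * t := hz3
    linarith
  have hMθ : (M : ℝ) * θ ^ 2 ≤ 1 := by
    have h1 : θ ^ 2 ≤ (1 / (M : ℝ)) ^ 2 := pow_le_pow_left₀ hθ.le hθ1 2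
    have h2 : (M : ℝ) * (1 / (M : ℝ)) ^ 2 = 1 / M := by
      field_simp
    have h3 : (1 : ℝ) / M ≤ 1 := by
      rw [div_le_one (by linarith)]
      exact hMR
    calc (M : ℝ) * θ ^ 2 ≤ M * (1 / (M : ℝ)) ^ 2 := mul_le_mul_of_nonneg_left h1 (by linarith)
      _ ≤ 1 := by rw [h2]; exact h3
  have hgg : gg z = PS (fun v => min (Real.posLog (v (xc z.1))) (Real.posLog (v (xc z.2)))) := rfl
  rw [← hgg] at hineq
  refine hnum k0 e ε θ y t (gg z) (logHeight₁ (co₁ z.1)) (logHeight₁ (co₂ z.2))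
    (logHeight₁ (co₁ x₀.1)) (logHeight₁ (co₂ x₀.2))
    (logHeight₁ (co₁ (sc1 t₁ e z.1 - x₀.1))) (logHeight₁ (co₂ (sc1 t₂ e z.2 - x₀.2)))
    (α 0) (α 1) A hε hεk hMθ hyK2 ht1 hz4
    (zero_le_logHeight₁ _) (zero_le_logHeight₁ _) hn1 hn2 hn3 (by positivity) (by positivity)
    hα1.le hA1 ?_
  exact hineq

end

end Pool.Agent.Helper11.SGT
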